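import Pool.Agent.MP_7070f9_lc.Final
import Pool.Agent.MP_7070f9_lc.Degree

/-!
Sums of square roots reduce to rigid foldability of crease patterns, in both directions.
-/

set_option autoImplicit false

namespace Pool.Agent.Results.MP_7070f9_lc.SqrtSumHardness

open Turing Pool.Agent.MP_7070f9_lc

theorem almostFour_pattern {I : List ℕ × ℕ} (hI : Good I) : (pattern I).AlmostFour := by
  obtain ⟨a, t⟩ := I
  obtain ⟨seg, hG⟩ := geo_pattern a t hI.ne hI.pos
  exact hG.almostFour

/-- (1) There is a polynomial-time computable map `f` from the instances `(a, t)` of SQRT-SUM to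
crease patterns with `∑ √(a i) ≤ t` if and only if `f (a, t)` is a yes-instance of RF-opt, and if
and only if it is a yes-instance of RF-all. (2) The same is true with `t < ∑ √(a i)` in place of
`∑ √(a i) ≤ t`. All vertices of the patterns in the interior of the paper, with at most two
exceptions, have degree four. -/
theorem result :
    (∃ f : List ℕ × ℕ → Pattern,
      Nonempty (TM2ComputableInPolyTime codeInst Pattern.code f) ∧
      ∀ I, (f I).AlmostFour ∧
        (sqrtSum I.1 ≤ I.2 ↔ (f I).RFopt) ∧ (sqrtSum I.1 ≤ I.2 ↔ (f I).RFall)) ∧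
    ∃ g : List ℕ × ℕ → Pattern,
      Nonempty (TM2ComputableInPolyTime codeInst Pattern.code g) ∧
      ∀ I, (g I).AlmostFour ∧
        ((I.2 : ℝ) < sqrtSum I.1 ↔ (g I).RFopt) ∧ ((I.2 : ℝ) < sqrtSum I.1 ↔ (g I).RFall) :=
  ⟨⟨redLe, redLe_poly, fun I => ⟨almostFour_pattern (selLe_spec I).1, redLe_spec I⟩⟩,
    ⟨redGt, redGt_poly, fun I => ⟨almostFour_pattern (selGt_spec I).1, redGt_spec I⟩⟩⟩

end Pool.Agent.Results.MP_7070f9_lc.SqrtSumHardness
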